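import Mathlib

/-!
# TANK G, block END, row E6a: an adapted basis of the lattice
-/

set_option autoImplicit false

namespace Pool.Agent.TG

/-- Row E6a (lattice): `φ` onto `ℤ^r`, `ker φ` in the span of some basis vectors `e j`, `j ∈ J`
(the ones of value zero): an adapted basis of `ℤ^r`. -/
theorem rowE6a {N r : ℕ} (φ : (Fin N → ℤ) →+ (Fin r → ℤ)) (hφ : Function.Surjective φ)
    (e : Module.Basis (Fin N) ℤ (Fin N → ℤ)) (J : Finset (Fin N))
    (hker : ∀ v, φ v = 0 → v ∈ Submodule.span ℤ (Set.range fun j : J => e j)) :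
    ∃ (β : Module.Basis (Fin r) ℤ (Fin r → ℤ)) (I : Finset (Fin r)),
      (∀ m, m ∈ AddSubmonoid.closure ({m | ∃ j ∉ J, m = φ (e j)} ∪
          {m | ∃ j ∈ J, m = φ (e j) ∨ m = - φ (e j)}) ↔ ∀ i ∈ I, 0 ≤ β.repr m i) ∧
        (∀ m, m ∈ AddSubgroup.closure {m | ∃ j ∈ J, m = φ (e j)} ↔ ∀ i ∈ I, β.repr m i = 0) ∧
          ∀ i ∈ I, ∃ j ∉ J, β i = φ (e j) := by
  classical
  let φl : (Fin N → ℤ) →ₗ[ℤ] (Fin r → ℤ) := φ.toIntLinearMap
  have hφl : ∀ v, φl v = φ v := fun v => rfl
  -- the coordinates outside `J` vanish on the span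
  have hcoord : ∀ v ∈ Submodule.span ℤ (Set.range fun j : J => e j), ∀ i ∉ J,
      e.repr v i = 0 := by
    intro v hv i hi
    induction hv using Submodule.span_induction with
    | mem x hx =>
      obtain ⟨j, rfl⟩ := hx
      rw [Module.Basis.repr_self, Finsupp.single_apply, if_neg]
      rintro rfl
      exact hi j.2
    | zero => rw [map_zero, Finsupp.zero_apply]
    | add x y _ _ hx hy => rw [map_add, Finsupp.add_apply, hx, hy, add_zero]
    | smul a x _ hx => rw [map_smul, Finsupp.smul_apply, hx, smul_zero]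
  let W : Submodule ℤ (Fin r → ℤ) := Submodule.span ℤ (Set.range fun j : J => φ (e j))
  have hWmap : ∀ w ∈ W, ∃ u ∈ Submodule.span ℤ (Set.range fun j : J => e j), φ u = w := by
    intro w hw
    have h1 : W = (Submodule.span ℤ (Set.range fun j : J => e j)).map φl := by
      rw [Submodule.map_span, ← Set.range_comp]
      rfl
    rw [h1] at hw
    obtain ⟨u, hu, rfl⟩ := hw
    exact ⟨u, hu, rfl⟩
  let bW := Module.Free.chooseBasis ℤ W
  let g : {j : Fin N // j ∉ J} ⊕ Module.Free.ChooseBasisIndex ℤ W → (Fin r → ℤ) :=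
    Sum.elim (fun j => φ (e j)) (fun i => (bW i : Fin r → ℤ))
  have hli : LinearIndependent ℤ g := by
    rw [Fintype.linearIndependent_iff]
    intro c hc
    rw [Fintype.sum_sum_type] at hc
    have h1 : φ (∑ j : {j : Fin N // j ∉ J}, c (Sum.inl j) • e j) =
        ∑ j : {j : Fin N // j ∉ J}, c (Sum.inl j) • g (Sum.inl j) := by
      rw [map_sum]
      exact Finset.sum_congr rfl fun j _ => by rw [map_zsmul]; rfl
    have h2 : ∑ i, c (Sum.inr i) • g (Sum.inr i) ∈ W :=
      W.sum_mem fun i _ => W.smul_mem _ (bW i).2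
    obtain ⟨u, hu, hu'⟩ := hWmap _ h2
    have h3 : (∑ j : {j : Fin N // j ∉ J}, c (Sum.inl j) • e j) + u ∈
        Submodule.span ℤ (Set.range fun j : J => e j) := by
      apply hker
      rw [map_add, h1, hu']
      exact hc
    have h4 : (∑ j : {j : Fin N // j ∉ J}, c (Sum.inl j) • e j) ∈
        Submodule.span ℤ (Set.range fun j : J => e j) := by
      have := Submodule.sub_mem _ h3 hu
      rwa [add_sub_cancel_right] at this
    have h5 : ∀ j : {j : Fin N // j ∉ J}, c (Sum.inl j) = 0 := by
      intro j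
      have h6 := hcoord _ h4 j j.2
      rw [map_sum, Finsupp.finsetSum_apply, Finset.sum_eq_single j] at h6
      · rw [map_smul, Module.Basis.repr_self, Finsupp.smul_apply, Finsupp.single_eq_same,
          smul_eq_mul, mul_one] at h6
        exact h6
      · intro i _ hij
        rw [map_smul, Module.Basis.repr_self, Finsupp.smul_apply, Finsupp.single_apply, if_neg,
          smul_zero]
        exact fun h => hij (Subtype.ext h)
      · intro h
        exact absurd (Finset.mem_univ _) h
    have h6 : ∑ i, c (Sum.inr i) • bW i = 0 := by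
      apply Subtype.ext
      have h7 : ∑ j : {j : Fin N // j ∉ J}, c (Sum.inl j) • g (Sum.inl j) = 0 :=
        Finset.sum_eq_zero fun j _ => by rw [h5, zero_smul]
      rw [h7, zero_add] at hc
      rw [AddSubmonoidClass.coe_finsetSum]
      exact hc
    have h7 := (Fintype.linearIndependent_iff.1 bW.linearIndependent) _ h6
    rintro (j | i)
    · exact h5 j
    · exact h7 i
  have hgin : ∀ v : Fin N → ℤ, φ v ∈ Submodule.span ℤ (Set.range g) := by
    intro v
    rw [← e.sum_repr v, map_sum]
    refine Submodule.sum_mem _ fun j _ => ?_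
    rw [map_zsmul]
    refine Submodule.smul_mem _ _ ?_
    by_cases hj : j ∈ J
    · have h1 : φ (e j) ∈ W := Submodule.subset_span ⟨⟨j, hj⟩, rfl⟩
      have h2 := bW.sum_repr ⟨φ (e j), h1⟩
      have h3 : ∑ i, (bW.repr ⟨φ (e j), h1⟩ i) • (bW i : Fin r → ℤ) = φ (e j) := by
        have h4 := congrArg (fun w : W => (w : Fin r → ℤ)) h2
        simp only [AddSubmonoidClass.coe_finsetSum] at h4
        exact h4
      rw [← h3]
      exact Submodule.sum_mem _ fun i _ => Submodule.smul_mem _ _
        (Submodule.subset_span ⟨Sum.inr i, rfl⟩)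
    · exact Submodule.subset_span ⟨Sum.inl ⟨j, hj⟩, rfl⟩
  have hspan : ⊤ ≤ Submodule.span ℤ (Set.range g) := by
    intro m _
    obtain ⟨v, rfl⟩ := hφ m
    exact hgin v
  let b0 := Module.Basis.mk hli hspan
  have hb0 : ∀ x, b0 x = g x := fun x => by rw [Module.Basis.mk_apply]
  let ε : ({j : Fin N // j ∉ J} ⊕ Module.Free.ChooseBasisIndex ℤ W) ≃ Fin r :=
    b0.indexEquiv (Pi.basisFun ℤ (Fin r))
  let β := b0.reindex ε
  have hβ : ∀ x, β (ε x) = g x := by
    intro x
    rw [Module.Basis.reindex_apply, Equiv.symm_apply_apply, hb0]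
  have hβr : ∀ m x, β.repr m (ε x) = b0.repr m x := by
    intro m x
    rw [Module.Basis.repr_reindex_apply, Equiv.symm_apply_apply]
  let I : Finset (Fin r) := Finset.univ.image fun j : {j : Fin N // j ∉ J} => ε (Sum.inl j)
  have hI : ∀ i, i ∈ I ↔ ∃ j : {j : Fin N // j ∉ J}, ε (Sum.inl j) = i := by
    intro i
    simp [I]
  have hbW : ∀ w ∈ W, ∀ j : {j : Fin N // j ∉ J}, b0.repr w (Sum.inl j) = 0 := by
    intro w hw j
    have h2 := bW.sum_repr ⟨w, hw⟩
    have h3 : ∑ i, (bW.repr ⟨w, hw⟩ i) • (bW i : Fin r → ℤ) = w := by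
      have h4 := congrArg (fun w : W => (w : Fin r → ℤ)) h2
      simp only [AddSubmonoidClass.coe_finsetSum] at h4
      exact h4
    rw [← h3, map_sum, Finsupp.finsetSum_apply]
    refine Finset.sum_eq_zero fun i _ => ?_
    have h5 : (bW i : Fin r → ℤ) = b0 (Sum.inr i) := (hb0 (Sum.inr i)).symm
    rw [h5, map_smul, Module.Basis.repr_self, Finsupp.smul_apply, Finsupp.single_apply, if_neg,
      smul_zero]
    exact fun h => by cases h
  have hbJ : ∀ m, (∀ j : {j : Fin N // j ∉ J}, b0.repr m (Sum.inl j) = 0) → m ∈ W := by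
    intro m hm
    rw [← b0.sum_repr m, Fintype.sum_sum_type]
    refine W.add_mem (W.sum_mem fun j _ => ?_) (W.sum_mem fun i _ => ?_)
    · rw [hm j, zero_smul]; exact W.zero_mem
    · refine W.smul_mem _ ?_
      rw [hb0]
      exact (bW i).2
  have hWcl : ∀ m, m ∈ W ↔ m ∈ AddSubgroup.closure {m | ∃ j ∈ J, m = φ (e j)} := by
    intro m
    have h1 : (Set.range fun j : J => φ (e j)) = {m | ∃ j ∈ J, m = φ (e j)} := by
      ext m
      constructor
      · rintro ⟨j, rfl⟩
        exact ⟨j, j.2, rfl⟩
      · rintro ⟨j, hj, rfl⟩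
        exact ⟨⟨j, hj⟩, rfl⟩
    rw [← h1, ← Submodule.span_int_eq_addSubgroupClosure]
    exact Iff.rfl
  refine ⟨β, I, fun m => ?_, fun m => ?_, fun i hi => ?_⟩
  · constructor
    · intro hm i hi
      obtain ⟨j, rfl⟩ := (hI i).1 hi
      rw [hβr]
      induction hm using AddSubmonoid.closure_induction with
      | mem x hx =>
        rcases hx with ⟨j', hj', rfl⟩ | ⟨j', hj', hx⟩
        · have h1 : b0 (Sum.inl ⟨j', hj'⟩) = φ (e j') := hb0 (Sum.inl ⟨j', hj'⟩)
          rw [← h1, Module.Basis.repr_self, Finsupp.single_apply]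
          split_ifs
          · exact zero_le_one
          · exact le_rfl
        · have h1 : x ∈ W := by
            have h2 : φ (e j') ∈ W := Submodule.subset_span ⟨⟨j', hj'⟩, rfl⟩
            rcases hx with rfl | rfl
            · exact h2
            · exact W.neg_mem h2
          exact (hbW x h1 j).ge
      | zero => rw [map_zero, Finsupp.zero_apply]
      | add x y _ _ hx hy => rw [map_add, Finsupp.add_apply]; exact add_nonneg hx hy
    · intro hm
      have hW : ∀ w ∈ W, w ∈ AddSubmonoid.closure ({m | ∃ j ∉ J, m = φ (e j)} ∪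
          {m | ∃ j ∈ J, m = φ (e j) ∨ m = - φ (e j)}) := by
        intro w hw
        rw [hWcl] at hw
        induction hw using AddSubgroup.closure_induction with
        | mem x hx =>
          obtain ⟨j, hj, rfl⟩ := hx
          exact AddSubmonoid.subset_closure (Or.inr ⟨j, hj, Or.inl rfl⟩)
        | zero => exact zero_mem _
        | add x y _ _ hx hy => exact add_mem hx hy
        | neg x hx' hx =>
          clear hx
          induction hx' using AddSubgroup.closure_induction with
          | mem x hx =>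
            obtain ⟨j, hj, rfl⟩ := hx
            exact AddSubmonoid.subset_closure (Or.inr ⟨j, hj, Or.inr rfl⟩)
          | zero => rw [neg_zero]; exact zero_mem _
          | add x y _ _ hx hy => rw [neg_add]; exact add_mem hx hy
          | neg x hx' hx =>
            rw [neg_neg]
            have h1 : ∀ y ∈ AddSubgroup.closure {m | ∃ j ∈ J, m = φ (e j)},
                y ∈ AddSubmonoid.closure ({m | ∃ j ∉ J, m = φ (e j)} ∪
                  {m | ∃ j ∈ J, m = φ (e j) ∨ m = - φ (e j)}) ∧
                -y ∈ AddSubmonoid.closure ({m | ∃ j ∉ J, m = φ (e j)} ∪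
                  {m | ∃ j ∈ J, m = φ (e j) ∨ m = - φ (e j)}) := by
              intro y hy
              induction hy using AddSubgroup.closure_induction with
              | mem x hx =>
                obtain ⟨j, hj, rfl⟩ := hx
                exact ⟨AddSubmonoid.subset_closure (Or.inr ⟨j, hj, Or.inl rfl⟩),
                  AddSubmonoid.subset_closure (Or.inr ⟨j, hj, Or.inr rfl⟩)⟩
              | zero => exact ⟨zero_mem _, by rw [neg_zero]; exact zero_mem _⟩
              | add x y _ _ hx hy =>
                exact ⟨add_mem hx.1 hy.1, by rw [neg_add]; exact add_mem hx.2 hy.2⟩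
              | neg x _ hx => exact ⟨hx.2, by rw [neg_neg]; exact hx.1⟩
            exact (h1 x hx').1
      rw [← b0.sum_repr m, Fintype.sum_sum_type]
      refine add_mem (sum_mem fun j _ => ?_) (hW _ (W.sum_mem fun i _ => ?_))
      · have h1 : 0 ≤ b0.repr m (Sum.inl j) := by
          rw [← hβr]
          exact hm _ ((hI _).2 ⟨j, rfl⟩)
        obtain ⟨a, ha⟩ := Int.eq_ofNat_of_zero_le h1
        rw [ha, hb0, natCast_zsmul]
        have h2 : g (Sum.inl j) ∈ AddSubmonoid.closure ({m | ∃ j ∉ J, m = φ (e j)} ∪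
            {m | ∃ j ∈ J, m = φ (e j) ∨ m = - φ (e j)}) :=
          AddSubmonoid.subset_closure (Or.inl ⟨j, j.2, rfl⟩)
        exact nsmul_mem h2 a
      · refine W.smul_mem _ ?_
        rw [hb0]
        exact (bW i).2
  · rw [← hWcl]
    constructor
    · intro hm i hi
      obtain ⟨j, rfl⟩ := (hI i).1 hi
      rw [hβr]
      exact hbW m hm j
    · intro hm
      refine hbJ m fun j => ?_
      rw [← hβr]
      exact hm _ ((hI _).2 ⟨j, rfl⟩)
  · obtain ⟨j, rfl⟩ := (hI i).1 hi
    exact ⟨j, j.2, hβ _⟩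

end Pool.Agent.TG
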